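import Pool.Agent.J4H63.IS.Stm

set_option autoImplicit false

/-! # Project IS (helper63): (BC1), from an independent set to a satisfying assignment (helper12) -/

namespace Pool.Agent.J4H12.IS

open Finset Pool.Agent.J4H64.SS Pool.Agent.J4H95.SP Pool.Agent.J4H63.IS

/-- the part of `S` in the block `i` -/
noncomputable def Bl {n : ℕ} (b : ℕ) (S : Finset (Fin n)) (i : ℕ) : Finset (Fin b) := by
  classical
  exact univ.filter fun j => ∃ h : i * b + j.1 < n, (⟨i * b + j.1, h⟩ : Fin n) ∈ S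

theorem mem_Bl {n b : ℕ} (S : Finset (Fin n)) (i : ℕ) (j : Fin b) :
    j ∈ Bl b S i ↔ ∃ h : i * b + j.1 < n, (⟨i * b + j.1, h⟩ : Fin n) ∈ S := by
  simp [Bl]

theorem sum_Bl {n b : ℕ} (hb : 1 ≤ b) (S : Finset (Fin n)) :
    S.card ≤ ∑ i : Fin (nb n b), (Bl b S i.1).card := by
  classical
  rw [← Finset.card_sigma]
  apply Finset.card_le_card_of_injOn
    (fun v : Fin n => (⟨⟨v.1 / b, by
        have := Nat.div_le_div_right (c := b) v.2.le
        unfold nb; omega⟩, ⟨v.1 % b, Nat.mod_lt _ hb⟩⟩ : Σ _ : Fin (nb n b), Fin b))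
  · intro v hv
    simp only [Finset.coe_sigma, Set.mem_sigma_iff, Finset.mem_coe]
    refine ⟨mem_univ _, ?_⟩
    rw [mem_Bl]
    have e : v.1 / b * b + v.1 % b = v.1 := Nat.div_add_mod' v.1 b
    refine ⟨by simp only [e]; exact v.2, ?_⟩
    have e2 : (⟨v.1 / b * b + v.1 % b, by rw [e]; exact v.2⟩ : Fin n) = v := Fin.ext e
    rw [e2]; exact hv
  · intro v _ v' _ h
    simp only [Sigma.mk.injEq, Fin.mk.injEq] at h
    obtain ⟨h1, h2⟩ := h
    have h3 : v.1 % b = v'.1 % b := by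
      have := eq_of_heq h2
      exact congrArg Fin.val this
    apply Fin.ext
    rw [← Nat.div_add_mod' v.1 b, ← Nat.div_add_mod' v'.1 b, h1, h3]

theorem t_BC1 : S_BC1 := by
  classical
  intro n b κ hb x ⟨S, hκ, hS⟩
  -- the number of the set `Bl b S i`
  let τ : Fin (nb n b) → Fin (2 ^ b) := fun i =>
    (Fintype.equivFinOfCardEq (by simp) : Finset (Fin b) ≃ Fin (2 ^ b)) (Bl b S i.1)
  have hτ : ∀ i, sb b (τ i) = Bl b S i.1 := by
    intro i
    simp [sb, τ]
  let c : Fin (nb n b) → Fin (b + 1) := fun i => ⟨(Bl b S i.1).card, by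
    have := (Bl b S i.1).card_le_univ
    rw [Fintype.card_fin] at this
    omega⟩
  refine ⟨c, ?_⟩
  let f : Bv n b → Bool := fun u => match u with
    | Sum.inl v => decide (v ∈ S)
    | Sum.inr (Sum.inl (i, t)) => decide (t = τ i)
    | Sum.inr (Sum.inr (i, t)) => decide (t.1 ≤ (τ i).1)
  refine ⟨fun z => f ((ev n b).symm z), ?_⟩
  have hx : ∀ v s, (fun z => f ((ev n b).symm z)) (lx n b v s).1 = decide (v ∈ S) := by
    intro v s; simp [lx, f]
  have hy : ∀ i t s, (fun z => f ((ev n b).symm z)) (ly n b i t s).1 = decide (t = τ i) := by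
    intro i t s; simp [ly, f]
  have hw : ∀ i t s, (fun z => f ((ev n b).symm z)) (lw n b i t s).1 = decide (t.1 ≤ (τ i).1) := by
    intro i t s; simp [lw, f]
  intro q hq
  have hq' : Bk n b κ c x q.1 := by simpa [bk] using hq
  rcases hq' with ⟨_, h⟩ | ⟨p, hp, h⟩ | ⟨i, t, j, hj, hn, h⟩ | ⟨i, t, ⟨j, hj, hn⟩, h⟩ |
    ⟨i, t, hc, h⟩ | ⟨i, h⟩ | ⟨i, t, h⟩ | ⟨i, h⟩
  · exfalso
    have := sum_Bl hb S
    simp only [c] at h
    omega
  · by_cases h1 : p.1.1 ∈ S
    · refine ⟨lx n b p.1.2 false, by rw [h]; simp, ?_⟩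
      rw [hx]
      simp only [lx]
      rw [decide_eq_false_iff_not]
      intro h2
      exact hS _ h1 _ h2 (Or.inl ⟨p.2, hp⟩)
    · refine ⟨lx n b p.1.1 false, by rw [h]; simp, ?_⟩
      rw [hx]
      simpa [lx] using h1
  · by_cases ht : t = τ i
    · refine ⟨lx n b ⟨_, hn⟩ true, by rw [h]; simp, ?_⟩
      rw [hx]
      rw [ht, hτ, mem_Bl] at hj
      obtain ⟨_, h3⟩ := hj
      simpa [lx] using h3
    · refine ⟨ly n b i t false, by rw [h]; simp, ?_⟩
      rw [hy]
      simpa [ly] using ht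
  · refine ⟨ly n b i t false, by rw [h]; simp, ?_⟩
    rw [hy]
    simp only [ly]
    rw [decide_eq_false_iff_not]
    intro ht
    rw [ht, hτ, mem_Bl] at hj
    obtain ⟨h3, _⟩ := hj
    exact hn h3
  · refine ⟨ly n b i t false, by rw [h]; simp, ?_⟩
    rw [hy]
    simp only [ly]
    rw [decide_eq_false_iff_not]
    intro ht
    rw [ht, hτ] at hc
    simp only [c] at hc
    omega
  · refine ⟨lw n b i 0 true, by rw [h]; simp, ?_⟩
    rw [hw]
    simp [lw]
  · by_cases h1 : t = τ i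
    · refine ⟨ly n b i t true, by rw [h]; simp, ?_⟩
      rw [hy]
      simpa [ly] using h1
    · by_cases h2 : t.1 ≤ (τ i).1
      · refine ⟨lw n b i t.succ true, by rw [h]; simp, ?_⟩
        rw [hw]
        have h3 : t.1 ≠ (τ i).1 := fun e => h1 (Fin.ext e)
        simp only [lw, Fin.val_succ, decide_eq_true_eq]
        omega
      · refine ⟨lw n b i (Fin.castSucc t) false, by rw [h]; simp, ?_⟩
        rw [hw]
        simpa [lw] using h2
  · refine ⟨lw n b i (Fin.last _) false, by rw [h]; simp, ?_⟩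
    rw [hw]
    have := (τ i).2
    simp only [lw, Fin.val_last]
    rw [decide_eq_false_iff_not]
    omega

end Pool.Agent.J4H12.IS
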